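import Pool.Agent.FS.SubdivisionFree.Main

/-!
Large families of pairwise anticomplete finite vertex sets.
-/

namespace Pool.Agent.FS.SubdivisionLarge

open Cardinal Set Order
open Pool.Agent.Lib.MP_cabec5_lc Pool.Agent.FS.SubdivisionFree

variable {U : Type} {G : SimpleGraph U} {θ lam : Cardinal.{0}}

theorem exists_fibre (h0 : ℵ₀ ≤ θ) (hl : θ ≤ lam) {ι : Type} [LinearOrder ι] [WellFoundedLT ι]
    (hι : lam < #ι) {R : ι → ι → Prop} (hR : ∀ j, #{i | i < j ∧ R i j} < θ) :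
    ∃ N : Set ι, lam < #N ∧ ∀ i ∈ N, ∀ j ∈ N, i < j → ¬ R i j := by
  have h1 : ∀ (j : ι) (c : {i | i < j ∧ R i j} → θ.out), ∃ k : θ.out, k ∉ range c := fun j c => by
    obtain ⟨k, -, hk⟩ := exists_not_mem (s := univ) (t := range c)
      ((mk_range_le.trans_lt (hR j)).trans_eq (by simp))
    exact ⟨k, hk⟩
  choose p hp using h1
  let c : ι → θ.out := WellFoundedLT.fix fun j ih => p j fun i => ih i.1 i.2.1
  have hc : ∀ j, c j = p j fun i => c i.1 := fun j => WellFoundedLT.fix_eq _ j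
  by_contra h
  push Not at h
  refine absurd (((mk_le_mk_of_subset (s := univ) (t := ⋃ k ∈ (univ : Set θ.out), c ⁻¹' {k})
    fun i _ => mem_biUnion (mem_univ (c i)) rfl).trans (le_biUnion (h0.trans hl) (by simpa using hl)
      fun k _ => not_lt.1 fun e => ?_))) (not_le.2 (by rwa [mk_univ]))
  obtain ⟨i, hi, j, hj, h2, h3⟩ := h _ e
  exact hp j (fun i => c i.1) ⟨⟨i, h2, h3⟩, (hi.trans (Eq.symm hj)).trans (hc j)⟩

theorem exists_apart_large (h0 : ℵ₀ ≤ θ) (hl : θ < lam) (hp : lam ^ θ ≤ lam)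
    (hK : ∀ B : Set U, #B = θ → #{v | ∀ b ∈ B, G.Adj v b} ≤ lam) {α : Type} {inn : α → Set U}
    (hfin : ∀ p, (inn p).Finite) {S : Set α}
    (hS : ∀ T : Set U, #T ≤ lam → ∃ p ∈ S, Disjoint (inn p) T) {J : Type} (hJ : #J ≤ succ lam) :
    ∃ f : J → α, (∀ i, f i ∈ S) ∧
      ∀ i j, i ≠ j → ∀ u ∈ inn (f i), ∀ w ∈ inn (f j), ¬ G.Adj u w := by
  have h1 : ℵ₀ ≤ lam := h0.trans hl.le
  have hi : ∀ p, #(inn p) ≤ lam := fun p => (lt_aleph0_iff_set_finite.2 (hfin p)).le.trans h1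
  have h2 : ∀ W : Set U, ∃ p ∈ S, #W ≤ lam → Disjoint (inn p) (W ∪ Bad G θ W) := fun W => by
    by_cases h : #W ≤ lam
    · obtain ⟨p, hp', hd⟩ := hS _ ((mk_union_le _ _).trans
        (add_le_of_le h1 h (card_bad h1 hp hK h)))
      exact ⟨p, hp', fun _ => hd⟩
    · obtain ⟨p, hp', -⟩ := hS ∅ (by simp)
      exact ⟨p, hp', fun e => absurd e h⟩
  choose c hc hc' using h2
  let f : (succ lam).ord.ToType → α :=
    WellFoundedLT.fix fun j ih => c (⋃ i : Iio j, inn (ih i i.2))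
  have hf : ∀ j, f j = c (⋃ i : Iio j, inn (f i)) := fun j => WellFoundedLT.fix_eq _ j
  have hd : ∀ j, Disjoint (inn (f j)) ((⋃ i : Iio j, inn (f i)) ∪
      Bad G θ (⋃ i : Iio j, inn (f i))) := fun j => by
    conv_lhs => rw [hf j]
    exact hc' _ ((mk_iUnion_le _).trans (mul_le_of_le h1
      (lt_succ_iff.1 ((mk_Iio_lt j (by simp)).trans_eq (by simp))) (ciSup_le' fun i => hi _)))
  obtain ⟨N, hN, hN'⟩ := exists_fibre h0 hl.le (ι := (succ lam).ord.ToType) (by simp)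
    (R := fun i j => ∃ u ∈ inn (f j), ∃ w ∈ inn (f i), G.Adj w u) fun j => by
    refine lt_of_le_of_lt (mk_le_mk_of_subset fun i hi => ?_) (small_biUnion h0 (hfin (f j))
      (f := fun u => {i | i < j ∧ ∃ w ∈ inn (f i), G.Adj w u}) fun u hu => ?_)
    · obtain ⟨h3, u, hu, h4⟩ := hi
      exact mem_biUnion hu ⟨h3, h4⟩
    · refine lt_of_le_of_lt ?_
        (not_le.1 (disjoint_left.1 ((hd j).mono_right subset_union_right) hu))
      have h4 : ∀ q : {i | i < j ∧ ∃ w ∈ inn (f i), G.Adj w u}, ∃ w ∈ inn (f q.1), G.Adj w u :=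
        fun q => q.2.2
      choose w hw hw' using h4
      refine mk_le_of_injective (f := fun q => ⟨w q, mem_iUnion.2 ⟨⟨q.1, q.2.1⟩, hw q⟩, hw' q⟩)
        fun q q' e => ?_
      have h6 : w q = w q' := congrArg Subtype.val e
      rcases lt_trichotomy q.1 q'.1 with h | h | h
      · exact absurd (Or.inl (mem_iUnion.2 ⟨⟨q.1, h⟩, h6 ▸ hw q⟩)) (disjoint_left.1 (hd _) (hw q'))
      · exact Subtype.ext h
      · exact absurd (Or.inl (mem_iUnion.2 ⟨⟨q'.1, h⟩, h6 ▸ hw q'⟩)) (disjoint_left.1 (hd _) (hw q))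
  obtain ⟨e⟩ := (Cardinal.le_def _ _).1 (hJ.trans (succ_le_of_lt hN))
  have hS' : ∀ j, f j ∈ S := fun j => by rw [hf j]; exact hc _
  refine ⟨fun i => f (e i), fun i => hS' _, fun i j h u hu w hw a => ?_⟩
  rcases lt_trichotomy (e i).1 (e j).1 with h3 | h3 | h3
  · exact hN' _ (e i).2 _ (e j).2 h3 ⟨w, hw, u, hu, a⟩
  · exact h (e.injective (Subtype.ext h3))
  · exact hN' _ (e j).2 _ (e i).2 h3 ⟨u, hu, w, hw, a.symm⟩

end Pool.Agent.FS.SubdivisionLarge
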