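import Pool.Agent.FS.SubdivisionLarge.Apart

/-!
If `lam ^ θ = lam`, a graph without `K(lam⁺, θ)` and without an induced copy of the once
subdivided `K(m, J)`, where `J` has size at most `lam⁺`, has colouring number at most `lam`.
-/

namespace Pool.Agent.FS.SubdivisionLarge

open Cardinal Set Order
open Pool.Agent.Lib.MP_cabec5_lc Pool.Agent.FS.SubdivisionFree

variable {U : Type} {G : SimpleGraph U} {θ lam : Cardinal.{0}} {m : ℕ}

/-- the once subdivided complete bipartite graph with sides `Fin m` and `J` -/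
abbrev large (m : ℕ) (J : Type) : SimpleGraph ((Fin m ⊕ J) ⊕ Fin m × J) :=
  SimpleGraph.fromRel fun a b =>
    ∃ i j, b = Sum.inr (i, j) ∧ (a = Sum.inl (Sum.inl i) ∨ a = Sum.inl (Sum.inr j))

theorem large_of_spiders (hm : 2 ≤ m) {J : Type} [Nonempty J] {z : Fin m → U}
    {f : J → U × (Fin m → U)}
    (hf : ∀ k, Sp G z (f k))
    (h : ∀ k l, k ≠ l → ∀ u ∈ inn (f k), ∀ w ∈ inn (f l), ¬ G.Adj u w) :
    (large m J).IsIndContained G := by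
  have e1 : ∀ i j, ¬ G.Adj (z i) (z j) := fun i j => by
    rcases eq_or_ne i j with rfl | e
    exacts [G.irrefl, ((hf (Classical.arbitrary J)).2 i j e).2.1]
  have e2 : ∀ i k, ¬ G.Adj (z i) (f k).1 := fun i k => ((hf k).1 i).2.2
  have e3 : ∀ i j l, G.Adj (z i) ((f l).2 j) ↔ i = j := fun i j l =>
    ⟨fun e => by_contra fun n => ((hf l).2 i j n).2.2 e, fun e => e ▸ ((hf l).1 i).2.1⟩
  have e4 : ∀ k l, ¬ G.Adj (f k).1 (f l).1 := fun k l => by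
    rcases eq_or_ne k l with rfl | e
    exacts [G.irrefl, h k l e _ (mem_insert _ _) _ (mem_insert _ _)]
  have e5 : ∀ k j l, G.Adj (f k).1 ((f l).2 j) ↔ k = l := fun k j l =>
    ⟨fun e => by_contra fun n => h k l n _ (mem_insert _ _) _ (Or.inr ⟨j, rfl⟩) e,
      fun e => e ▸ ((hf k).1 j).1⟩
  have e6 : ∀ i k j l, ¬ G.Adj ((f k).2 i) ((f l).2 j) := fun i k j l => by
    rcases eq_or_ne k l with rfl | e
    · rcases eq_or_ne i j with rfl | e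
      exacts [G.irrefl, ((hf k).2 i j e).1]
    · exact h k l e _ (Or.inr ⟨i, rfl⟩) _ (Or.inr ⟨j, rfl⟩)
  have e2' : ∀ i k, ¬ G.Adj (f k).1 (z i) := fun i k e => e2 i k e.symm
  have e3' : ∀ i j l, G.Adj ((f l).2 j) (z i) ↔ i = j := fun i j l =>
    (G.adj_comm _ _).trans (e3 i j l)
  have e5' : ∀ k j l, G.Adj ((f l).2 j) (f k).1 ↔ k = l := fun k j l =>
    (G.adj_comm _ _).trans (e5 k j l)
  let φ : (Fin m ⊕ J) ⊕ Fin m × J → U :=
    Sum.elim (Sum.elim z fun k => (f k).1) fun q => (f q.2).2 q.1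
  have key : ∀ a c, G.Adj (φ a) (φ c) ↔ (large m J).Adj a c := by
    rintro ((i | k) | ⟨i, k⟩) ((j | l) | ⟨j, l⟩) <;>
      simp [φ, SimpleGraph.fromRel_adj, e1, e2, e3, e4, e5, e6, e2', e3', e5'] <;> exact eq_comm
  have : Nontrivial (Fin m) := Fin.nontrivial_iff_two_le.2 hm
  refine ⟨⟨⟨φ, fun a c e => ?_⟩, fun {a c} => key a c⟩⟩
  have tw : ∀ d, G.Adj (φ a) (φ d) ↔ G.Adj (φ c) (φ d) := fun d => by rw [e]
  rcases a with ((i | k) | ⟨i, k⟩) <;> rcases c with ((j | l) | ⟨j, l⟩)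
  · simpa [φ, e3, eq_comm] using tw (Sum.inr (i, Classical.arbitrary J))
  · obtain ⟨k, hk⟩ := exists_ne i
    simpa [φ, e3, e5, hk.symm] using tw (Sum.inr (k, l))
  · simpa [φ, e3, e6] using tw (Sum.inr (i, l))
  · obtain ⟨i, hi⟩ := exists_ne j
    simpa [φ, e3, e5, hi.symm] using tw (Sum.inr (i, k))
  · obtain ⟨i⟩ : Nonempty (Fin m) := inferInstance
    simpa [φ, e5, eq_comm] using tw (Sum.inr (i, k))
  · simpa [φ, e5, e6] using tw (Sum.inr (j, k))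
  · simpa [φ, e3, e6] using tw (Sum.inr (j, k))
  · simpa [φ, e5, e6] using tw (Sum.inr (i, l))
  · have h1 : i = j := by simpa [φ, e3'] using tw (Sum.inl (Sum.inl i))
    have h2 : k = l := by simpa [φ, e5'] using tw (Sum.inl (Sum.inr k))
    rw [h1, h2]

theorem exists_hit_large (h0 : ℵ₀ ≤ θ) (hl : θ < lam) (hp : lam ^ θ ≤ lam)
    (hK : ∀ B : Set U, #B = θ → #{v | ∀ b ∈ B, G.Adj v b} ≤ lam) (hm : 2 ≤ m)
    {J : Type} [Nonempty J] (hJ : #J ≤ succ lam) (hc : ¬ (large m J).IsIndContained G)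
    (z : Fin m → U) : ∃ T : Set U, #T ≤ lam ∧ ∀ p, Sp G z p → ¬ Disjoint (inn p) T := by
  by_contra h
  push Not at h
  obtain ⟨f, hf, hf'⟩ := exists_apart_large h0 hl hp hK (inn := inn)
    (fun p => (finite_range _).insert _) (S := {p | Sp G z p}) h hJ
  exact hc (large_of_spiders hm hf hf')

theorem col_of_large_free (h0 : ℵ₀ ≤ θ) (hl : θ < lam) (hp : lam ^ θ ≤ lam) (hm : 2 ≤ m)
    {J : Type} [Nonempty J] (hJ : #J ≤ succ lam) (hc : ¬ (large m J).IsIndContained G)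
    (hK' : ¬ ∃ A B : Set U, #A = succ lam ∧ #B = θ ∧ ∀ a ∈ A, ∀ b ∈ B, G.Adj a b) :
    ∃ r : U → U → Prop, IsWellOrder U r ∧ ∀ v, #{u // r u v ∧ G.Adj u v} < lam := by
  have h1 : ℵ₀ ≤ lam := h0.trans hl.le
  have hK : ∀ B : Set U, #B = θ → #{v | ∀ b ∈ B, G.Adj v b} ≤ lam := fun B hB => by
    by_contra h
    obtain ⟨A, hA, hc⟩ := le_mk_iff_exists_subset.1 (succ_le_of_lt (not_le.1 h))
    exact hK' ⟨A, B, hc, hB, hA⟩
  choose T hT hT' using exists_hit_large h0 hl hp hK hm hJ hc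
  have hs : ∀ S : Set U, #{y | #S ≤ lam ∧ y ∈ S} ≤ lam := fun S => by
    by_cases h : #S ≤ lam
    · exact (mk_le_mk_of_subset fun y hy => hy.2).trans h
    · simp [h]
  have hfin : ∀ {α : Type} {s : Set α}, s.Finite → #s ≤ lam := fun h =>
    (lt_aleph0_iff_set_finite.2 h).le.trans h1
  let F : List U → Set U := fun l => (⋃ z ∈ {z : Fin m → U | ∀ i, z i ∈ {a | a ∈ l}}, T z) ∪
    ⋃ a ∈ {a | a ∈ l}, ⋃ b ∈ {b | b ∈ l},
      {y | #{w | G.Adj a w ∧ G.Adj b w} ≤ lam ∧ y ∈ {w | G.Adj a w ∧ G.Adj b w}}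
  have hF : ∀ l, #(F l) ≤ lam := fun l => (mk_union_le _ _).trans (add_le_of_le h1
    (le_biUnion h1 (hfin (Finite.pi' fun _ => l.finite_toSet)) fun z _ => hT z)
    (le_biUnion h1 (hfin l.finite_toSet) fun a _ =>
      le_biUnion h1 (hfin l.finite_toSet) fun b _ => hs _))
  have hM : ∀ M, Closed F M → ∀ z : Fin m → U, (∀ i, z i ∈ M) → T z ⊆ M := fun M hM z hz y hy =>
    hM (List.ofFn z) (by simpa using hz) (Or.inl (mem_biUnion (x := z) (by simp) hy))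
  have hM2 : ∀ M, Closed F M → ∀ v ∉ M, #{u | u ∈ M ∧ G.Adj u v} ≤ lam := fun M h v hv =>
    few_nbrs h0 hl hp hK (m := m) (fun A hA => ⟨cl F A, card_cl h1 hF hA, fun z hz p hp hd =>
      hT' z p hp (hd.mono_right (hM _ (closed_cl F A) z fun i => subset_cl F A (hz i)))⟩)
      fun a ha b hb => not_le.1 fun e => hv (h [a, b] (by simpa using ⟨ha.1, hb.1⟩) (Or.inr
        (mem_biUnion (x := a) (by simp) (mem_biUnion (x := b) (by simp) ⟨e, ha.2, hb.2⟩))))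
  obtain ⟨P, B, ⟨hP, hP', hB⟩, ht⟩ := exists_tree h1 hF _ univ rfl
  let D : U → Set U := fun u => B u ∪ ⋃ M ∈ P u, {x | x ∈ M ∧ G.Adj x u}
  have hD : ∀ u, #(D u) ≤ lam := fun u => (mk_union_le _ _).trans (add_le_of_le h1 (hB u)
    (le_biUnion h1 (hfin (hP u)) fun M h => hM2 M (hP' u M h).1 u (hP' u M h).2))
  let Y : U → Set U → Set U := fun b M =>
    {y | G.Adj b y ∧ y ∉ M ∧ θ ≤ #{x | x ∈ M ∧ G.Adj x y ∧ ¬ G.Adj x b}}
  refine col_le_of_closed (F := fun l => ⋃ u ∈ {u | u ∈ l}, (D u ∪ Bad G θ (D u)) ∪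
    ⋃ M ∈ P u, {z | #(Y u M) ≤ lam ∧ z ∈ Y u M}) h1
    (fun l => le_biUnion h1 (hfin l.finite_toSet) fun u _ => (mk_union_le _ _).trans
      (add_le_of_le h1 ((mk_union_le _ _).trans (add_le_of_le h1 (hD u) (card_bad h1 hp hK (hD u))))
        (le_biUnion h1 (hfin (hP u)) fun M _ => hs _))) fun X hX v hv => ?_
  have h2 : ∀ u ∈ X, v ∉ (D u ∪ Bad G θ (D u)) ∪ ⋃ M ∈ P u,
      {z | #(Y u M) ≤ lam ∧ z ∈ Y u M} := fun u hu h =>
    hv (hX [u] (by simpa using hu) (mem_biUnion (List.mem_singleton_self u) h))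
  have h3 : ∀ u ∈ X, #{x | x ∈ D u ∧ G.Adj x v} < θ := fun u hu =>
    not_le.1 fun e => h2 u hu (Or.inl (Or.inr e))
  by_contra h
  have h4 : ∃ b ∈ {u | u ∈ X ∧ G.Adj u v}, ∃ M ∈ P b, θ ≤ #{x | x ∈ M ∧ G.Adj x v} := by
    by_contra h4
    push Not at h4
    obtain ⟨x, hx, y, hy, e1, e2⟩ := free_pair h0 (hl.trans_le (not_lt.1 h))
      (f := fun a => {x | x ∈ D a ∧ G.Adj x v} ∪ ⋃ M ∈ P a, {x | x ∈ M ∧ G.Adj x v}) fun a ha =>
      (mk_union_le _ _).trans_lt (add_lt_of_lt h0 (h3 a ha.1) (small_biUnion h0 (hP a) (h4 a ha)))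
    rcases ht x trivial y trivial with ⟨M, h5, h6⟩ | ⟨M, h5, h6⟩ | h5
    · exact e1 (Or.inr (mem_biUnion h5 ⟨h6, hx.2⟩))
    · exact e2 (Or.inr (mem_biUnion h5 ⟨h6, hy.2⟩))
    · exact e2 (Or.inl ⟨Or.inl h5, hy.2⟩)
  obtain ⟨b, hb, M, hbM, h4⟩ := h4
  have h5 : v ∉ M := fun e => h2 b hb.1 (Or.inl (Or.inl (Or.inr (mem_biUnion hbM ⟨e, hb.2.symm⟩))))
  have h6 : θ ≤ #{x | x ∈ M ∧ G.Adj x v ∧ ¬ G.Adj x b} := by
    by_contra h6
    refine absurd (h4.trans ((mk_le_mk_of_subset fun x hx => ?_).trans (mk_union_le _ _)))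
      (not_le.2 (add_lt_of_lt h0 (not_le.1 h6) (h3 b hb.1)))
    by_cases e : G.Adj x b
    · exact Or.inr ⟨Or.inr (mem_biUnion hbM ⟨hx.1, e⟩), hx.2⟩
    · exact Or.inl ⟨hx.1, hx.2, e⟩
  have h7 : lam < #(Y b M) := not_le.1 fun e =>
    h2 b hb.1 (Or.inr (mem_biUnion hbM ⟨e, hb.2, h5, h6⟩))
  obtain ⟨y, z, h8, h9⟩ := exists_legs h0 hl hp hK (M := M)
    (P := fun y => {x | x ∈ M ∧ G.Adj x y ∧ ¬ G.Adj x b}) (fun y x hx => ⟨hx.1, hx.2.1⟩) m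
    (Y b M) ∅ h7 (by simp) fun y hy => ⟨hy.2.2, hM2 M (hP' b M hbM).1 y hy.2.1⟩
  refine hT' z (b, y) ⟨fun i => ⟨(h8 i).1.1, (h8 i).2.1.2.1, (h8 i).2.1.2.2⟩, h9⟩
    (disjoint_left.2 fun u hu e => ?_)
  have h10 := hM M (hP' b M hbM).1 z (fun i => (h8 i).2.1.1) e
  rcases hu with rfl | ⟨i, rfl⟩
  · exact (hP' _ M hbM).2 h10
  · exact (h8 i).1.2.1 h10

end Pool.Agent.FS.SubdivisionLarge
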